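import Pool.Agent.helper54.UG.Spec

/-!
# Project ug (MP_a2a22c_al): row NSG
-/

set_option autoImplicit false

namespace Pool.Agent.UG

open Matrix Pool.Agent.H48SL

/-- a unipotent element is not a multiple of the identity on some vector -/
theorem NSG_bad {n : ℕ} {x : SLZ n} (hx : x ≠ 1) (hnil : IsNilpotent (qg x - 1)) :
    ∃ e : Fin n → ℤ, e ≠ 0 ∧
      ∀ a b : ℤ, a • ((x : Matrix (Fin n) (Fin n) ℤ) *ᵥ e) = b • e → a = 0 := by
  by_contra hcon
  push Not at hcon
  have key : ∀ e : Fin n → ℤ, e ≠ 0 → (x : Matrix (Fin n) (Fin n) ℤ) *ᵥ e = e := by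
    intro e he
    obtain ⟨a, b, hab, ha⟩ := hcon e he
    rcases eig_pm he ha hab with h | h
    · exact h
    · exfalso
      have h1 : (qg x - 1) *ᵥ castV e = (-2 : ℚ) • castV e := by
        rw [sub_mulVec, one_mulVec, qg_mulVec_castV, h]
        ext i
        simp only [castV, Pi.neg_apply, Pi.sub_apply, Pi.smul_apply, smul_eq_mul]
        push_cast
        ring
      have h2 : ∀ k : ℕ, ((qg x - 1) ^ k) *ᵥ castV e = ((-2 : ℚ) ^ k) • castV e := by
        intro k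
        induction k with
        | zero => rw [pow_zero, pow_zero, one_mulVec, one_smul]
        | succ k ih =>
          rw [pow_succ, ← mulVec_mulVec, h1, mulVec_smul, ih, smul_smul, pow_succ, mul_comm]
      obtain ⟨k, hk⟩ := hnil
      have h3 := h2 k
      rw [hk, zero_mulVec] at h3
      rcases smul_eq_zero.mp h3.symm with h4 | h4
      · exact absurd h4 (pow_ne_zero _ (by norm_num))
      · apply he
        apply castV_inj
        rw [h4, castV_zero]
  apply hx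
  apply SL_ext
  ext i j
  have h1 := key (Pi.single j 1) (by
    intro h
    have := congrFun h j
    simp at this)
  have h2 := congrFun h1 i
  rw [mulVec_single_one] at h2
  rw [Matrix.SpecialLinearGroup.coe_one, Matrix.one_apply]
  rw [Pi.single_apply] at h2
  exact h2

/-- an integer vector orthogonal to two given ones -/
theorem NSG_orth {n : ℕ} (hn : 3 ≤ n) (α β : Fin n → ℤ) :
    ∃ p : Fin n → ℤ, p ≠ 0 ∧ α ⬝ᵥ p = 0 ∧ β ⬝ᵥ p = 0 := by
  set A : Matrix (Fin 2) (Fin n) ℚ := Matrix.of ![castV α, castV β] with hA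
  have h1 : LinearMap.ker (Matrix.mulVecLin A) ≠ ⊥ := by
    apply LinearMap.ker_ne_bot_of_finrank_lt
    rw [Module.finrank_fin_fun, Module.finrank_fin_fun]
    omega
  obtain ⟨v, hv, hv0⟩ := (Submodule.ne_bot_iff _).mp h1
  obtain ⟨N, w, hN, hw⟩ := clear_denom v
  rw [LinearMap.mem_ker, Matrix.mulVecLin_apply] at hv
  have ha : castV α ⬝ᵥ v = 0 := congrFun hv 0
  have hb : castV β ⬝ᵥ v = 0 := congrFun hv 1
  have hN' : (N : ℚ) ≠ 0 := by exact_mod_cast hN
  refine ⟨w, ?_, ?_, ?_⟩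
  · rintro rfl
    rw [castV_zero] at hw
    exact (smul_ne_zero hN' hv0) hw.symm
  · have h2 := castV_dot α w
    rw [hw, dotProduct_smul, ha, smul_zero] at h2
    exact_mod_cast h2.symm
  · have h2 := castV_dot β w
    rw [hw, dotProduct_smul, hb, smul_zero] at h2
    exact_mod_cast h2.symm

/-- a transvection in a normal subgroup from an element which fixes a vector -/
theorem NSG_tv {n : ℕ} {N : Subgroup (SLZ n)} (hN : N.Normal) {y : SLZ n} (hy : y ∈ N)
    (hy1 : y ≠ 1) {p : Fin n → ℤ} (hp : p ≠ 0)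
    (hyp : (y : Matrix (Fin n) (Fin n) ℤ) *ᵥ p = p) :
    ∃ θ : Fin n → ℤ, θ ≠ 0 ∧ θ ⬝ᵥ p = 0 ∧ tv p θ ∈ N := by
  by_cases h : ∃ ψ : Fin n → ℤ, ψ ⬝ᵥ p = 0 ∧
      ψ ᵥ* ((y⁻¹ : SLZ n) : Matrix (Fin n) (Fin n) ℤ) ≠ ψ
  · obtain ⟨ψ, h1, h2⟩ := h
    have h3 : (ψ ᵥ* ((y⁻¹ : SLZ n) : Matrix (Fin n) (Fin n) ℤ)) ⬝ᵥ p = 0 := by
      have h4 := vecMul_inv_dot y ψ p
      rw [hyp, h1] at h4
      exact h4
    have h5 := tv_conj h1 y
    rw [hyp] at h5
    refine ⟨ψ ᵥ* ((y⁻¹ : SLZ n) : Matrix (Fin n) (Fin n) ℤ) + -ψ, ?_, ?_, ?_⟩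
    · intro h6
      apply h2
      rw [add_neg_eq_zero] at h6
      exact h6
    · rw [add_dotProduct, h3, neg_dotProduct, h1, neg_zero, add_zero]
    · rw [tv_add_right h3 (by rw [neg_dotProduct, h1, neg_zero]), tv_neg_right h1, ← h5]
      have h6 : y * tv p ψ * y⁻¹ * (tv p ψ)⁻¹ = y * (tv p ψ * y⁻¹ * (tv p ψ)⁻¹) := by group
      rw [h6]
      exact N.mul_mem hy (hN.conj_mem _ (N.inv_mem hy) _)
  · push Not at h
    obtain ⟨i0, hi0⟩ := Function.ne_iff.mp hp
    rw [Pi.zero_apply] at hi0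
    set M : Matrix (Fin n) (Fin n) ℤ := (y : Matrix (Fin n) (Fin n) ℤ) - 1 with hM
    have hyM : (y : Matrix (Fin n) (Fin n) ℤ) = 1 + M := by rw [hM]; abel
    have hψ : ∀ ψ : Fin n → ℤ, ψ ⬝ᵥ p = 0 → ψ ᵥ* M = 0 := by
      intro ψ h1
      have h2 := h ψ h1
      have h3 := congrArg (fun w => w ᵥ* (y : Matrix (Fin n) (Fin n) ℤ)) h2
      simp only [vecMul_vecMul] at h3
      rw [← Matrix.SpecialLinearGroup.coe_mul, inv_mul_cancel, Matrix.SpecialLinearGroup.coe_one,
        vecMul_one] at h3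
      rw [hM, vecMul_sub, ← h3, vecMul_one, sub_self]
    have hrow : ∀ i j, p i0 * M j i = p j * M i0 i := by
      intro i j
      have h1 := hψ (p i0 • Pi.single j 1 - p j • Pi.single i0 1) (by
        simp only [sub_dotProduct, smul_dotProduct, single_one_dotProduct, smul_eq_mul]
        ring)
      rw [sub_vecMul, smul_vecMul, smul_vecMul, single_one_vecMul, single_one_vecMul] at h1
      have h2 := congrFun h1 i
      simp only [Pi.sub_apply, Pi.smul_apply, smul_eq_mul, Pi.zero_apply, Matrix.row_apply] at h2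
      linarith
    have hMp : M *ᵥ p = 0 := by rw [hM, sub_mulVec, one_mulVec, hyp, sub_self]
    have hθp : (fun i => M i0 i) ⬝ᵥ p = 0 := congrFun hMp i0
    have hvec : p i0 • M = vecMulVec p (fun i => M i0 i) := by
      ext j i
      rw [Matrix.smul_apply, smul_eq_mul, vecMulVec_apply]
      exact hrow i j
    have hMM : M * M = 0 := by
      have h1 : p i0 • (M * M) = 0 := by
        rw [← Matrix.smul_mul, hvec]
        ext j i
        have h2 : ∀ k, p k * M i0 i = p i0 * M k i := fun k => (hrow i k).symm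
        have h3 : p i0 * ∑ k, M i0 k * M k i = 0 := by
          rw [Finset.mul_sum]
          have h4 : ∀ k, p i0 * (M i0 k * M k i) = (M i0 k * p k) * M i0 i := by
            intro k
            linear_combination (- M i0 k) * h2 k
          rw [Finset.sum_congr rfl fun k _ => h4 k, ← Finset.sum_mul]
          have h5 : ∑ k, M i0 k * p k = 0 := hθp
          rw [h5, zero_mul]
        have h4 : ∑ k, M i0 k * M k i = 0 := (mul_eq_zero.mp h3).resolve_left hi0
        rw [Matrix.mul_apply, Matrix.zero_apply]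
        simp only [vecMulVec_apply, mul_assoc]
        rw [← Finset.mul_sum, h4, mul_zero]
      rcases smul_eq_zero.mp h1 with h2 | h2
      · exact absurd h2 hi0
      · exact h2
    have hpow : ∀ k : ℕ, ((y ^ k : SLZ n) : Matrix (Fin n) (Fin n) ℤ) = 1 + (k : ℤ) • M := by
      intro k
      induction k with
      | zero => simp
      | succ k ih =>
        rw [pow_succ, Matrix.SpecialLinearGroup.coe_mul, ih, hyM]
        simp only [Matrix.add_mul, Matrix.mul_add, Matrix.one_mul, Matrix.mul_one,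
          Matrix.smul_mul, hMM, smul_zero, add_zero, Nat.cast_succ, add_smul, one_smul]
        abel
    have hθ0 : (fun i => M i0 i) ≠ 0 := by
      intro h1
      apply hy1
      apply SL_ext
      rw [hyM, Matrix.SpecialLinearGroup.coe_one]
      have h2 : p i0 • M = 0 := by
        rw [hvec, h1, vecMulVec_zero]
      rcases smul_eq_zero.mp h2 with h3 | h3
      · exact absurd h3 hi0
      · rw [h3, add_zero]
    rcases Int.eq_nat_or_neg (p i0) with ⟨k, hk | hk⟩
    · refine ⟨fun i => M i0 i, hθ0, hθp, ?_⟩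
      have h1 : tv p (fun i => M i0 i) = y ^ k := by
        apply SL_ext
        rw [tv_coe hθp, hpow, ← hvec, hk]
      rw [h1]
      exact N.pow_mem hy k
    · have hneg : (-(fun i => M i0 i) : Fin n → ℤ) ⬝ᵥ p = 0 := by
        rw [neg_dotProduct, hθp, neg_zero]
      refine ⟨-(fun i => M i0 i), neg_ne_zero.mpr hθ0, hneg, ?_⟩
      have h1 : tv p (-(fun i => M i0 i)) = y ^ k := by
        apply SL_ext
        rw [tv_coe hneg, hpow, vecMulVec_neg, ← hvec, hk, neg_smul, neg_neg]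
      rw [h1]
      exact N.pow_mem hy k

/-- all transvections with the same centre -/
theorem NSG_mult {n : ℕ} {N : Subgroup (SLZ n)} (hN : N.Normal) {p θ : Fin n → ℤ}
    (hθ : θ ≠ 0) (hθp : θ ⬝ᵥ p = 0) (ht : tv p θ ∈ N) (χ : Fin n → ℤ) (hχ : χ ⬝ᵥ p = 0) :
    ∃ k : ℤ, k ≠ 0 ∧ tv p (k • χ) ∈ N := by
  by_cases h0 : χ = 0
  · refine ⟨1, one_ne_zero, ?_⟩
    rw [h0, smul_zero, tv_zero_right]
    exact N.one_mem
  by_cases h : ∃ q : Fin n → ℤ, χ ⬝ᵥ q = 0 ∧ θ ⬝ᵥ q ≠ 0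
  · obtain ⟨q, hq1, hq2⟩ := h
    refine ⟨θ ⬝ᵥ q, hq2, ?_⟩
    rw [← tv_commutator hθp hq1 hχ]
    have h6 : tv p θ * tv q χ * (tv p θ)⁻¹ * (tv q χ)⁻¹
        = tv p θ * (tv q χ * (tv p θ)⁻¹ * (tv q χ)⁻¹) := by group
    rw [h6]
    exact N.mul_mem ht (hN.conj_mem _ (N.inv_mem ht) _)
  · push Not at h
    obtain ⟨i, hi⟩ := Function.ne_iff.mp h0
    rw [Pi.zero_apply] at hi
    have h1 : χ i • θ = θ i • χ := by
      ext j
      have h2 := h (χ i • Pi.single j 1 - χ j • Pi.single i 1) (by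
        simp only [dotProduct_sub, dotProduct_smul, dotProduct_single_one, smul_eq_mul]
        ring)
      simp only [dotProduct_sub, dotProduct_smul, dotProduct_single_one, smul_eq_mul] at h2
      simp only [Pi.smul_apply, smul_eq_mul]
      linarith
    refine ⟨θ i, ?_, ?_⟩
    · intro h2
      rw [h2, zero_smul] at h1
      exact (smul_ne_zero hi hθ) h1
    · rw [← h1]
      exact tv_smul_mem hθp ht _

theorem NSG : NSG_stmt := by
  intro n hn N hN x hxN hx1 hnil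
  have hcard : 3 ≤ Fintype.card (Fin n) := by rw [Fintype.card_fin]; exact hn
  obtain ⟨e, he, hxe⟩ := NSG_bad hx1 hnil
  obtain ⟨φ, hφ, hφe', -⟩ := NSG_orth hn e e
  have hφe : φ ⬝ᵥ e = 0 := by rw [dotProduct_comm]; exact hφe'
  set φ' : Fin n → ℤ := φ ᵥ* ((x⁻¹ : SLZ n) : Matrix (Fin n) (Fin n) ℤ) with hφ'
  set e' : Fin n → ℤ := (x : Matrix (Fin n) (Fin n) ℤ) *ᵥ e with he'
  have hφe1 : φ' ⬝ᵥ e' = 0 := by rw [hφ', he', vecMul_inv_dot, hφe]
  have hconj : x * tv e φ * x⁻¹ = tv e' φ' := tv_conj hφe x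
  set y : SLZ n := x * tv e φ * x⁻¹ * (tv e φ)⁻¹ with hy
  have hyN : y ∈ N := by
    have h6 : y = x * (tv e φ * x⁻¹ * (tv e φ)⁻¹) := by rw [hy]; group
    rw [h6]
    exact N.mul_mem hxN (hN.conj_mem _ (N.inv_mem hxN) _)
  have hy1 : y ≠ 1 := by
    intro h1
    have h2 : tv e' φ' = tv e φ := by
      rw [← hconj]
      exact mul_inv_eq_one.mp h1
    have h3 : vecMulVec e' φ' = vecMulVec e φ := by
      have h4 := congrArg (fun g : SLZ n => (g : Matrix (Fin n) (Fin n) ℤ)) h2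
      simp only [tv_coe hφe1, tv_coe hφe] at h4
      exact add_left_cancel h4
    have hφ0 : φ' ≠ 0 := vecMul_ne_zero x⁻¹ hφ
    obtain ⟨j, hj⟩ := Function.ne_iff.mp hφ0
    rw [Pi.zero_apply] at hj
    apply hj
    apply hxe (φ' j) (φ j)
    ext i
    have h5 := congrFun (congrFun h3 i) j
    rw [vecMulVec_apply, vecMulVec_apply] at h5
    simp only [Pi.smul_apply, smul_eq_mul]
    rw [mul_comm (φ' j), mul_comm (φ j)]
    exact h5
  obtain ⟨p, hp, hφp, hφp'⟩ := NSG_orth hn φ φ'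
  have hyp : (y : Matrix (Fin n) (Fin n) ℤ) *ᵥ p = p := by
    have h1 : (((tv e φ)⁻¹ : SLZ n) : Matrix (Fin n) (Fin n) ℤ) *ᵥ p = p := by
      have h2 := tv_mulVec (e := e) (φ := -φ) (by rw [neg_dotProduct, hφe, neg_zero]) p
      rw [neg_dotProduct, hφp, neg_zero, zero_smul, add_zero, tv_neg_right hφe] at h2
      exact h2
    have h3 : ((tv e' φ' : SLZ n) : Matrix (Fin n) (Fin n) ℤ) *ᵥ p = p := by
      rw [tv_mulVec hφe1, hφp', zero_smul, add_zero]
    rw [hy, hconj, Matrix.SpecialLinearGroup.coe_mul, ← mulVec_mulVec, h1, h3]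
  obtain ⟨θ, hθ, hθp, ht⟩ := NSG_tv hN hyN hy1 hp hyp
  obtain ⟨m, hm, hmN⟩ := exists_uniform hp (NSG_mult hN hθ hθp ht)
  have hD : ZDense (⊤ : Subgroup (SLZ n)) := fun P hP g => hP g (Subgroup.mem_top g)
  obtain ⟨h, -, hdet⟩ := exists_basis hD hp
  set F : Matrix (Fin n) (Fin n) ℤ :=
    Matrix.of (fun k i => ((h i : Matrix (Fin n) (Fin n) ℤ) *ᵥ p) k) with hF
  have hcol : ∀ i, (fun k => F k i) = (h i : Matrix (Fin n) (Fin n) ℤ) *ᵥ p := fun i => rfl
  have hle : NQ (Fin n) (m ^ 2 * F.det ^ 4) ≤ N := by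
    apply NQ_le_of_basis F hcard N m
    intro i ψ hψ
    rw [hcol] at hψ ⊢
    have h3 : (ψ ᵥ* (h i : Matrix (Fin n) (Fin n) ℤ)) ⬝ᵥ p = 0 := by
      rw [← dotProduct_mulVec]; exact hψ
    have h4 := tv_conj (e := p) (φ := m • (ψ ᵥ* (h i : Matrix (Fin n) (Fin n) ℤ)))
      (by rw [smul_dotProduct, h3, smul_zero]) (h i)
    have h5 : (m • (ψ ᵥ* (h i : Matrix (Fin n) (Fin n) ℤ))) ᵥ*
        (((h i)⁻¹ : SLZ n) : Matrix (Fin n) (Fin n) ℤ) = m • ψ := by
      rw [smul_vecMul, vecMul_vecMul, ← Matrix.SpecialLinearGroup.coe_mul, mul_inv_cancel,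
        Matrix.SpecialLinearGroup.coe_one, vecMul_one]
    rw [h5] at h4
    rw [← h4]
    exact hN.conj_mem _ (hmN _ h3) _
  have hq0 : (m ^ 2 * F.det ^ 4).natAbs ≠ 0 := by
    rw [Int.natAbs_ne_zero]
    exact mul_ne_zero (pow_ne_zero _ hm) (pow_ne_zero _ hdet)
  have hq : (((m ^ 2 * F.det ^ 4).natAbs : ℕ) : ℤ) = m ^ 2 * F.det ^ 4 := by
    rw [Int.natCast_natAbs, abs_of_nonneg (by positivity)]
  have hfi := NQ_finiteIndex (ι := Fin n) _ hq0 hcard
  rw [hq] at hfi
  exact Subgroup.finiteIndex_of_le hle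

end Pool.Agent.UG
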